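import Mathlib

set_option autoImplicit false
set_option maxHeartbeats 400000

namespace Pool.Agent.Results.MP_eab7e5_al.NotSimple

open SkewMonoidAlgebra (single)

def G : Subgroup (Equiv.Perm ℕ) where
  carrier := {g | {x | g x ≠ x}.Finite}
  one_mem' := by simp
  mul_mem' := fun {a b} ha hb => (ha.union hb).subset fun x hx => by
    by_contra h
    simp only [Set.mem_union, Set.mem_ofPred_eq, not_or, not_not] at h
    exact hx (by simp [h.1, h.2])
  inv_mem' := fun {a} ha => ha.subset fun x hx h => hx (by rw [Equiv.Perm.inv_eq_iff_eq, h])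

@[ext] structure Om where
  r : ℕ → ℕ → Prop
  irr : ∀ a, ¬ r a a
  tr : ∀ a b c, r a b → r b c → r a c
  tri : ∀ a b, a ≠ b → ¬ r a b → r b a

instance : MulAction G Om where
  smul g y := ⟨fun a b => y.r (g⁻¹.1 a) (g⁻¹.1 b), fun _ => y.irr _, fun _ _ _ => y.tr _ _ _,
    fun _ _ h => y.tri _ _ (g⁻¹.1.injective.ne h)⟩
  one_smul _ := rfl
  mul_smul g h y := Om.ext (by
    funext a b
    change y.r ((g * h)⁻¹.1 a) ((g * h)⁻¹.1 b) = y.r (h⁻¹.1 (g⁻¹.1 a)) (h⁻¹.1 (g⁻¹.1 b))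
    rw [mul_inv_rev]; rfl)

lemma inv_smul_r (g : G) (y : Om) (a b : ℕ) : (g⁻¹ • y).r a b ↔ y.r (g.1 a) (g.1 b) := Iff.rfl

def Agree (F : Finset ℕ) (y z : Om) : Prop := ∀ a ∈ F, ∀ b ∈ F, (y.r a b ↔ z.r a b)

def B : Subring (Om → ZMod 2) where
  carrier := {f | ∃ F, ∀ y z, Agree F y z → f y = f z}
  one_mem' := ⟨∅, fun _ _ _ => rfl⟩
  zero_mem' := ⟨∅, fun _ _ _ => rfl⟩
  mul_mem' := fun ⟨F, hF⟩ ⟨F', hF'⟩ => ⟨F ∪ F', fun y z h => by
    simp only [Pi.mul_apply]
    rw [hF y z fun a ha b hb => h a (by simp [ha]) b (by simp [hb]),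
      hF' y z fun a ha b hb => h a (by simp [ha]) b (by simp [hb])]⟩
  add_mem' := fun ⟨F, hF⟩ ⟨F', hF'⟩ => ⟨F ∪ F', fun y z h => by
    simp only [Pi.add_apply]
    rw [hF y z fun a ha b hb => h a (by simp [ha]) b (by simp [hb]),
      hF' y z fun a ha b hb => h a (by simp [ha]) b (by simp [hb])]⟩
  neg_mem' := fun ⟨F, hF⟩ => ⟨F, fun y z h => by simp only [Pi.neg_apply]; rw [hF y z h]⟩

instance : MulSemiringAction (G × G) B where
  smul γ f := ⟨fun y => f.1 (γ.1⁻¹ • y), by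
    obtain ⟨F, hF⟩ := f.2
    exact ⟨F.image γ.1.1, fun y z h => hF _ _ fun a ha b hb =>
      h _ (Finset.mem_image_of_mem _ ha) _ (Finset.mem_image_of_mem _ hb)⟩⟩
  one_smul f := Subtype.ext (funext fun y => by
    change f.1 ((1 : G)⁻¹ • y) = _
    rw [inv_one, one_smul])
  mul_smul a b f := Subtype.ext (funext fun y => by
    change f.1 ((a.1 * b.1)⁻¹ • y) = f.1 (b.1⁻¹ • a.1⁻¹ • y)
    rw [mul_inv_rev, mul_smul])
  smul_zero _ := rfl
  smul_add _ _ _ := rfl
  smul_one _ := rfl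
  smul_mul _ _ _ := rfl

@[simp] lemma smul_val (γ : G × G) (f : B) (y : Om) : (γ • f).1 y = f.1 (γ.1⁻¹ • y) := rfl

open Classical in
noncomputable def ind (F : Finset ℕ) (y : Om) : B :=
  ⟨fun z => if Agree F z y then 1 else 0, F, fun z w h => by
    have : Agree F z y ↔ Agree F w y := forall₄_congr fun a ha b hb => by rw [h a ha b hb]
    simp [this]⟩

lemma ind_ne {F : Finset ℕ} {y z : Om} : (ind F y).1 z ≠ 0 ↔ Agree F z y := by simp [ind]

lemma ind_self (F : Finset ℕ) (y : Om) : (ind F y).1 y ≠ 0 := ind_ne.2 fun _ _ _ _ => Iff.rfl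

def U (k : G) : Set Om := {y | ∃ z, k.1 z = z ∧ ∀ p, k.1 p ≠ p → y.r z p}

lemma U_one (y : Om) : y ∈ U 1 := ⟨0, rfl, fun _ h => absurd rfl h⟩

lemma U_mul {k l : G} {y : Om} (hk : y ∈ U k) (hl : y ∈ U l) : y ∈ U (k * l) := by
  obtain ⟨z, h1, h2⟩ := hk
  obtain ⟨w, h3, h4⟩ := hl
  have hs : ∀ p, (k * l).1 p ≠ p → k.1 p ≠ p ∨ l.1 p ≠ p := fun p hp => by
    by_contra h
    push Not at h
    exact hp (by simp [h.1, h.2])
  have tr := y.tr
  have irr := y.irr
  by_cases h : y.r z w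
  · have : l.1 z = z := by_contra fun h' => irr _ (tr _ _ _ h (h4 z h'))
    exact ⟨z, by simp [this, h1], fun p hp => (hs p hp).elim (h2 p) fun h' => tr _ _ _ h (h4 p h')⟩
  · have : k.1 w = w := by_contra fun h' => h (h2 w h')
    refine ⟨w, by simp [this, h3], fun p hp => (hs p hp).elim (fun h' => ?_) (h4 p)⟩
    by_cases e : z = w
    · exact e ▸ h2 p h'
    · exact tr _ _ _ (y.tri _ _ e h) (h2 p h')

lemma U_inv {k : G} {y : Om} (hk : y ∈ U k) : y ∈ U k⁻¹ := by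
  obtain ⟨z, h1, h2⟩ := hk
  exact ⟨z, Equiv.Perm.inv_eq_iff_eq.2 h1.symm, fun p hp => h2 p fun h =>
    hp (Equiv.Perm.inv_eq_iff_eq.2 h.symm)⟩

lemma U_conj {k : G} {y : Om} (g : G) (hk : g⁻¹ • y ∈ U k) : y ∈ U (g * k * g⁻¹) := by
  obtain ⟨z, h1, h2⟩ := hk
  refine ⟨g.1 z, by simp [h1], fun p hp => ?_⟩
  have := h2 (g.1⁻¹ p) fun h => hp (by
    change g.1 (k.1 (g.1⁻¹ p)) = p
    rw [h]; simp)
  simpa [inv_smul_r] using this

lemma U_open {k : G} {y : Om} (hk : y ∈ U k) : ∃ F, ∀ z, Agree F z y → z ∈ U k := by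
  obtain ⟨z, h1, h2⟩ := hk
  exact ⟨insert z k.2.toFinset, fun w hw => ⟨z, h1, fun p hp =>
    (hw z (by simp) p (Finset.mem_insert_of_mem (k.2.mem_toFinset.2 hp))).2 (h2 p hp)⟩⟩

lemma free {k : G} {y : Om} (h : ∀ a b, k.1 a ≠ a → k.1 b ≠ b → y.r a b → y.r (k.1 a) (k.1 b)) :
    k = 1 := by
  by_contra hk
  have : IsStrictOrder ℕ y.r := { irrefl := y.irr, trans := y.tr }
  have hne : ∃ p, k.1 p ≠ p := by
    by_contra hn
    push Not at hn
    exact hk (Subtype.ext (Equiv.ext hn))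
  obtain ⟨p0, hp0⟩ := hne
  obtain ⟨⟨p, hp⟩, -, hm⟩ := (Set.Finite.wellFoundedOn (r := y.r) k.2).has_min Set.univ
    ⟨⟨p0, hp0⟩, trivial⟩
  have hq : k.1 (k.1⁻¹ p) ≠ k.1⁻¹ p := fun e => hp (by simpa using congrArg k.1 e)
  have h1 : y.r p (k.1⁻¹ p) := y.tri _ _ (fun e => hq (by simpa using e.symm)) (hm ⟨_, hq⟩ trivial)
  exact hm ⟨k.1 p, fun e => hp (k.1.injective e)⟩ trivial (by simpa using h _ _ hp hq h1)

def emb (F : Finset ℕ) (σ : Equiv.Perm F) : G :=
  ⟨Equiv.Perm.ofSubtype σ, F.finite_toSet.subset fun _ hx =>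
    by_contra fun h => hx (Equiv.Perm.ofSubtype_apply_of_not_mem σ h)⟩

lemma iso (F : Finset ℕ) (y z : Om) : ∃ σ, Agree F ((emb F σ)⁻¹ • y) z := by
  classical
  have sto : ∀ y : Om, IsStrictTotalOrder F (fun a b => y.r a b) := fun y =>
    { irrefl := fun a => y.irr a, trans := fun a b c => y.tr a b c
      trichotomous := fun a b h1 h2 => by_contra fun h =>
        h2 (y.tri _ _ (fun e => h (Subtype.ext e)) h1) }
  let L := fun y : Om => @linearOrderOfSTO F (fun a b => y.r a b) (sto y) _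
  let e := fun y : Om => @monoEquivOfFin F _ (L y) _ rfl
  have he : ∀ (y : Om) i j, y.r (e y i) (e y j) ↔ i < j := fun y i j =>
    @OrderIso.lt_iff_lt _ _ _ (L y).toPreorder (e y) i j
  refine ⟨(e z).toEquiv.symm.trans (e y).toEquiv, fun a ha b hb => ?_⟩
  rw [inv_smul_r]
  simp only [emb]
  rw [Equiv.Perm.ofSubtype_apply_of_mem _ ha, Equiv.Perm.ofSubtype_apply_of_mem _ hb]
  refine (he y _ _).trans ((he z _ _).symm.trans ?_)
  have := fun a => (e z).toEquiv.apply_symm_apply a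
  exact iff_of_eq (congrArg₂ z.r (congrArg Subtype.val (this _)) (congrArg Subtype.val (this _)))

def push (z : ℕ) (y : Om) : Om where
  r a b := (a = z ∧ b ≠ z) ∨ (a ≠ z ∧ b ≠ z ∧ y.r a b)
  irr a := by have := y.irr a; grind
  tr a b c := by have := y.tr a b c; grind
  tri a b := by have := y.tri a b; grind

def om0 : Om := ⟨(· < ·), lt_irrefl, fun _ _ _ => lt_trans, by omega⟩

lemma const {f : B} (h : ∀ k, ∀ y ∈ U k, f.1 (k⁻¹ • y) = f.1 y) (y z : Om) : f.1 y = f.1 z := by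
  obtain ⟨F, hF⟩ := f.2
  obtain ⟨p, hp⟩ := Infinite.exists_notMem_finset F
  obtain ⟨σ, hσ⟩ := iso F (push p y) z
  rw [← hF _ _ hσ, h, hF]
  · intro a ha b hb
    have : a ≠ p := fun e => hp (e ▸ ha)
    have : b ≠ p := fun e => hp (e ▸ hb)
    simp [push, *]
  · have := Equiv.Perm.ofSubtype_apply_of_not_mem σ hp
    exact ⟨p, this, fun q hq => Or.inl ⟨rfl, fun e => hq (e ▸ this)⟩⟩

abbrev S := SkewMonoidAlgebra B (G × G)

lemma ex_of_ne {x w : S} {γ : G × G} {y : Om} (h : ((x * w).coeff γ).1 y ≠ 0) :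
    ∃ α, (x.coeff α).1 y ≠ 0 ∧ (w.coeff (α⁻¹ * γ)).1 (α.1⁻¹ • y) ≠ 0 := by
  rw [SkewMonoidAlgebra.coeff_mul_left, SkewMonoidAlgebra.sum_def', AddSubmonoidClass.coe_finsetSum,
    Finset.sum_apply] at h
  obtain ⟨α, -, hα⟩ := Finset.exists_ne_zero_of_sum_ne_zero h
  exact ⟨α, mul_ne_zero_iff.1 hα⟩

lemma single_ok {γ : G × G} {f : B} (h : ∀ y, f.1 y ≠ 0 → y ∈ U (γ.1 * γ.2⁻¹)) (δ : G × G) (y : Om)
    (hy : ((single γ f : S).coeff δ).1 y ≠ 0) : y ∈ U (δ.1 * δ.2⁻¹) := by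
  classical
  rw [SkewMonoidAlgebra.coeff_single_apply] at hy
  split_ifs at hy with e
  · exact e ▸ h y hy
  · exact absurd rfl hy

def R : Subring S where
  carrier := {x | ∀ γ y, (x.coeff γ).1 y ≠ 0 → y ∈ U (γ.1 * γ.2⁻¹)}
  one_mem' := single_ok fun y _ => by simpa using U_one y
  zero_mem' := fun _ _ h => absurd rfl h
  add_mem' := fun {a b} ha hb γ y h => by
    by_cases h1 : (a.coeff γ).1 y = 0
    · exact hb γ y fun h2 => h (by simp [h1, h2])
    · exact ha γ y h1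
  neg_mem' := fun {a} ha γ y h => ha γ y fun h1 => h (by simp [h1])
  mul_mem' := fun {a b} ha hb γ y h => by
    obtain ⟨α, h1, h2⟩ := ex_of_ne h
    convert U_mul (U_conj α.1 (hb _ _ h2)) (ha _ _ h1) using 2
    simp [mul_assoc]

noncomputable def sg (γ : G × G) (f : B) (h : ∀ y, f.1 y ≠ 0 → y ∈ U (γ.1 * γ.2⁻¹)) : R :=
  ⟨single γ f, single_ok h⟩

noncomputable def un (g : G) : R := sg (g, g) 1 fun y _ => by simpa using U_one y

noncomputable def fn (f : B) : R := sg 1 f fun y _ => by simpa using U_one y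

lemma un_mul (g : G) : un g⁻¹ * un g = 1 := Subtype.ext (by
  simp [un, sg, SkewMonoidAlgebra.single_mul_single]; rfl)

def A (g : G) : Submodule ℤ R where
  carrier := {x | ∀ γ : G × G, γ.2 ≠ g → x.1.coeff γ = 0}
  zero_mem' := fun _ _ => rfl
  add_mem' := fun ha hb γ h => by simp [ha γ h, hb γ h]
  smul_mem' := fun c x hx γ h => by
    let φ : R →+ B := (Finsupp.applyAddHom γ).comp
      (SkewMonoidAlgebra.coeffAddEquiv.toAddMonoidHom.comp R.subtype.toAddMonoidHom)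
    have h1 : φ x = 0 := hx γ h
    change φ (c • x) = 0
    rw [map_zsmul, h1, smul_zero]

lemma sg_mem (γ : G × G) (f : B) (h) : sg γ f h ∈ A γ.2 := fun δ hδ =>
  Finsupp.single_eq_of_ne fun e => hδ (e ▸ rfl)

lemma mul_A {g h : G} {a b : R} (ha : a ∈ A g) (hb : b ∈ A h) : a * b ∈ A (g * h) := by
  intro γ hγ
  ext y
  by_contra hn
  obtain ⟨α, h1, h2⟩ := ex_of_ne (x := a.1) (w := b.1) hn
  have e1 : α.2 = g := by_contra fun e => h1 (by rw [ha α e]; rfl)
  have e2 : (α⁻¹ * γ).2 = h := by_contra fun e => h2 (by rw [hb _ e]; rfl)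
  exact hγ (by simp [← e1, ← e2])

lemma strong (g h : G) : A g * A h = A (g * h) := by
  refine le_antisymm (Submodule.mul_le.2 fun _ ha _ hb => mul_A ha hb) fun x hx => ?_
  have : x = x * un h⁻¹ * un h := by rw [mul_assoc, un_mul, mul_one]
  rw [this]
  exact Submodule.mul_mem_mul (by simpa [un] using mul_A hx (sg_mem (h⁻¹, h⁻¹) 1 _)) (sg_mem (h, h) 1 _)

lemma internal [DecidableEq G] : DirectSum.IsInternal A := by
  refine (DirectSum.isInternal_submodule_iff_iSupIndep_and_iSup_eq_top A).2 ⟨fun g => ?_, ?_⟩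
  · refine Submodule.disjoint_def.2 fun x hx hx' => ?_
    have : ∀ γ : G × G, γ.2 = g → x.1.coeff γ = 0 := by
      clear hx
      induction hx' using Submodule.iSup_induction' with
      | zero => exact fun _ _ => rfl
      | add a b _ _ h1 h2 => intro γ h; simp [h1 γ h, h2 γ h]
      | mem h a ha =>
        intro γ hγ
        by_cases e : h = g
        · simp [e] at ha; simp [ha]
        · simp only [ne_eq, e, not_false_eq_true, iSup_pos] at ha
          exact ha γ (hγ ▸ Ne.symm e)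
    exact Subtype.ext (SkewMonoidAlgebra.ext fun γ => (em _).elim (this γ) (hx γ))
  · refine eq_top_iff.2 fun x _ => ?_
    have : x = ∑ γ ∈ x.1.support, sg γ (x.1.coeff γ) (x.2 γ) := Subtype.ext (by
      rw [AddSubmonoidClass.coe_finsetSum]
      exact (SkewMonoidAlgebra.sum_single x.1).symm)
    rw [this]
    exact Submodule.sum_mem _ fun γ _ => Submodule.mem_iSup_of_mem γ.2 (sg_mem _ _ _)

lemma cent (x : R) (hx : ∀ a ∈ A 1, x * a = a * x) : x ∈ A 1 := by
  rintro ⟨h, g⟩ hg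
  ext y
  by_contra hy
  obtain rfl : h = 1 := by
    refine free (y := y) fun a b _ _ hab => ?_
    have h1 := congrArg (fun t : R => (t.1.coeff (h, g)).1 y) (hx (fn (ind {a, b} (h⁻¹ • y)))
      (sg_mem 1 _ _))
    have h2 := congrArg (fun t : R => (t.1.coeff (h, g)).1 y) (hx (fn (ind {a, b} y))
      (sg_mem 1 _ _))
    simp only [fn, sg, Subring.coe_mul, SkewMonoidAlgebra.coeff_mul_single_one,
      SkewMonoidAlgebra.coeff_single_one_mul, Pi.mul_apply, smul_val] at h2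
    rw [mul_comm] at h2
    have h3 := mul_right_cancel₀ hy h2
    exact (ind_ne.1 (h3 ▸ ind_self _ _) a (by simp) b (by simp)).2 hab
  have hc := const (f := x.1.coeff (1, g)) (fun k z hz => by
    obtain ⟨F, hF⟩ := U_open hz
    have h2 := congrArg (fun t : R => (t.1.coeff (k, g)).1 z) (hx (sg (k, 1) (ind F z)
      fun w hw => by simpa using hF w (ind_ne.1 hw)) (sg_mem (k, 1) _ _))
    simp only [sg, Subring.coe_mul, SkewMonoidAlgebra.coeff_mul_single,
      SkewMonoidAlgebra.coeff_single_mul, Pi.mul_apply, smul_val, Prod.inv_mk, Prod.mk_mul_mk,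
      mul_inv_cancel, inv_mul_cancel, inv_one, mul_one, one_mul, one_smul] at h2
    rw [mul_comm] at h2
    exact (mul_left_cancel₀ (ind_self F z) h2).symm)
  obtain ⟨p, hp⟩ : ∃ p, (1 * g⁻¹).1 p ≠ p := by
    by_contra hn
    push Not at hn
    exact hg (by simpa using (Subtype.ext (Equiv.ext hn) : 1 * g⁻¹ = 1))
  obtain ⟨z, h1, h2⟩ := x.2 (1, g) (push p y) (hc y _ ▸ hy)
  rcases h2 p hp with h | h
  · exact h.2 rfl
  · exact h.2.1 rfl

lemma gsimple (I : TwoSidedIdeal R) {g : G} {x : R} (hI : x ∈ I) (hx : x ∈ A g) (h0 : x ≠ 0) :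
    I = ⊤ := by
  classical
  obtain ⟨⟨h, g'⟩, y, hy⟩ : ∃ γ y, (x.1.coeff γ).1 y ≠ 0 := by
    by_contra hn
    push Not at hn
    exact h0 (Subtype.ext (SkewMonoidAlgebra.ext fun γ => Subtype.ext (funext (hn γ))))
  obtain rfl : g' = g := by_contra fun e => hy (by rw [hx _ e]; rfl)
  obtain ⟨F0, hF0⟩ := U_open (k := h⁻¹ * g'⁻¹⁻¹) (y := h⁻¹ • y) (by
    have := U_conj (y := h⁻¹ • y) h⁻¹ (by simpa using U_inv (x.2 _ _ hy))
    simpa [mul_assoc] using this)
  let w : R := x * sg (h⁻¹, g'⁻¹) (ind F0 (h⁻¹ • y)) fun z hz => hF0 z (ind_ne.1 hz)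
  have hwI : w ∈ I := I.mul_mem_right _ _ hI
  have hw1 : w ∈ A 1 := by simpa using mul_A hx (sg_mem (h⁻¹, g'⁻¹) _ _)
  have hwy : (w.1.coeff 1).1 y ≠ 0 := by
    simp only [w, sg, Subring.coe_mul, SkewMonoidAlgebra.coeff_mul_single, one_mul, Prod.inv_mk,
      inv_inv, Pi.mul_apply, smul_val]
    exact mul_ne_zero hy (ind_self _ _)
  clear_value w
  obtain ⟨F1, hF1⟩ := (w.1.coeff 1).2
  let F := F1 ∪ w.1.support.biUnion fun γ => γ.1.2.toFinset
  have z2 : ∀ a : ZMod 2, a ≠ 0 → a = 1 := by decide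
  have e1 : fn (ind F y) * w * fn (ind F y) = fn (ind F y) := by
    refine Subtype.ext (SkewMonoidAlgebra.ext fun γ => Subtype.ext (funext fun z => ?_))
    simp only [fn, sg, Subring.coe_mul, SkewMonoidAlgebra.coeff_mul_single_one,
      SkewMonoidAlgebra.coeff_single_one_mul, Pi.mul_apply, smul_val,
      SkewMonoidAlgebra.coeff_single_apply]
    split_ifs with e
    · subst e
      by_cases hz : (ind F y).1 z = 0
      · simp [hz]
      · rw [hF1 z y fun a ha b hb => ind_ne.1 hz a (by simp [F, ha]) b (by simp [F, hb]), z2 _ hwy]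
        simp [z2 _ hz]
    · by_contra hn
      simp only [ZeroMemClass.coe_zero, Pi.zero_apply, mul_eq_zero, not_or] at hn
      obtain ⟨⟨h1, h2⟩, h3⟩ := hn
      have hγ : γ ∈ w.1.support := SkewMonoidAlgebra.mem_support_iff.2 fun e => h2 (by rw [e]; rfl)
      have hF : ∀ a, γ.1.1 a ≠ a → a ∈ F := fun a ha => Finset.mem_union_right _
        (Finset.mem_biUnion.2 ⟨γ, hγ, γ.1.2.mem_toFinset.2 ha⟩)
      refine e (Prod.ext (free (y := z) fun a b ha hb hab => ?_).symm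
        (by_contra fun e => h2 (by rw [hw1 γ (Ne.symm e)]; rfl)))
      exact (ind_ne.1 h3 a (hF a ha) b (hF b hb)).2 ((ind_ne.1 h1 a (hF a ha) b (hF b hb)).1 hab)
  have hI1 : fn (ind F y) ∈ I := e1 ▸ I.mul_mem_right _ _ (I.mul_mem_left _ _ hwI)
  let φ : B →+* R := SkewMonoidAlgebra.singleOneRingHom.codRestrict R fun f => (fn f).2
  let J : Ideal B := I.asIdeal.comap φ
  have hJ : ∀ k : G, ((k, k) : G × G) • ind F y ∈ J := fun k => by
    have : φ (((k, k) : G × G) • ind F y) = un k * fn (ind F y) * un k⁻¹ := Subtype.ext (by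
      simp [φ, un, fn, sg, SkewMonoidAlgebra.single_mul_single, SkewMonoidAlgebra.singleOneRingHom]
      rfl)
    change φ _ ∈ I
    rw [this]
    exact I.mul_mem_right _ _ (I.mul_mem_left _ _ hI1)
  have hp : ∏ σ, (1 - ((emb F σ, emb F σ) : G × G) • ind F y) = 0 := by
    refine Subtype.ext (funext fun z => ?_)
    obtain ⟨σ, hσ⟩ := iso F z y
    rw [SubmonoidClass.coe_finsetProd, Finset.prod_apply]
    exact Finset.prod_eq_zero (Finset.mem_univ σ) (by simp [z2 _ (ind_ne.2 hσ)])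
  have := congrArg (Ideal.Quotient.mk J) hp
  simp only [map_prod, map_sub, map_one, Ideal.Quotient.eq_zero_iff_mem.2 (hJ _), sub_zero,
    Finset.prod_const_one, map_zero] at this
  have h1 : φ 1 ∈ I := Ideal.Quotient.eq_zero_iff_mem.1 (show Ideal.Quotient.mk J 1 = 0 from this)
  rw [map_one] at h1
  exact (TwoSidedIdeal.one_mem_iff I).1 h1

instance : Nontrivial B := ⟨0, 1, fun h => by simpa using congrArg (fun f : B => f.1 om0) h⟩

lemma not_simple : ¬ IsSimpleRing R := fun _ => by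
  let φ : R →+* S := (SkewMonoidAlgebra.mapDomainRingHom
    (f := (MonoidHom.inl G G).comp (MonoidHom.fst G G)) fun _ _ => rfl).comp R.subtype
  let k : G := ⟨Equiv.swap 1 2, (Set.toFinite {1, 2}).subset fun x hx => by
    by_contra h
    simp only [Set.mem_insert_iff, Set.mem_singleton_iff, not_or] at h
    exact hx (Equiv.swap_apply_of_ne_of_ne h.1 h.2)⟩
  obtain ⟨F, hF⟩ := U_open (k := k) (y := om0) ⟨0, by decide, fun p hp =>
    Nat.pos_of_ne_zero (by rintro rfl; exact hp (by decide))⟩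
  have := φ.injective (a₁ := sg (k, 1) (ind F om0) fun w hw => by simpa using hF w (ind_ne.1 hw))
    (a₂ := sg (k, k) (ind F om0) fun w _ => by simpa using U_one w)
    (by simp [φ, sg, SkewMonoidAlgebra.mapDomainRingHom])
  have h2 := (SkewMonoidAlgebra.single_left_inj fun e => ind_self F om0 (by rw [e]; rfl)).1
    (congrArg Subtype.val this)
  have := congrArg (fun γ : G × G => γ.2.1 1) h2
  simp [k] at this

theorem result : ∃ (Γ : Type) (_ : Group Γ) (_ : DecidableEq Γ) (T : Type) (_ : Ring T)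
    (𝒜 : Γ → Submodule ℤ T), Nontrivial T ∧ DirectSum.IsInternal 𝒜 ∧
      (∀ g h, 𝒜 g * 𝒜 h = 𝒜 (g * h)) ∧
      (∀ I : TwoSidedIdeal T,
        (∀ x ∈ I, x ∈ AddSubgroup.closure {y | y ∈ I ∧ ∃ g, y ∈ 𝒜 g}) → I = ⊥ ∨ I = ⊤) ∧
      (∀ x : T, (∀ a ∈ 𝒜 1, x * a = a * x) → x ∈ 𝒜 1) ∧
      ∃ I : TwoSidedIdeal T, I ≠ ⊥ ∧ I ≠ ⊤ := by
  classical
  refine ⟨G, inferInstance, inferInstance, R, inferInstance, A, inferInstance, internal, strong,
    fun I hI => ?_, cent, ?_⟩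
  · by_contra hn
    push Not at hn
    refine hn.1 (eq_bot_iff.2 fun x hx => ?_)
    have : AddSubgroup.closure {y | y ∈ I ∧ ∃ g, y ∈ A g} ≤ ⊥ :=
      (AddSubgroup.closure_le _).2 fun y ⟨h1, g, h2⟩ => by_contra fun h => hn.2 (gsimple I h1 h2 h)
    exact this (hI x hx)
  · by_contra hn
    push Not at hn
    exact not_simple ⟨{ eq_bot_or_eq_top := fun I => or_iff_not_imp_left.2 (hn I) }⟩

end Pool.Agent.Results.MP_eab7e5_al.NotSimple
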